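import Pool.Agent.K3h83.IN.Stm6

/-! # Brick C0 of the cyclic case (helper93): local structure of a cyclic Sylow subgroup -/

set_option autoImplicit false

open scoped BigOperators Classical

noncomputable section

namespace Pool.Agent.K3h93.CY

open Pool.Agent.K3h3.MK Pool.Agent.K3h83.IN

theorem mem_of_coprime {G : Type} [Group G] (Z : Subgroup G) {x : G} {a b : ℕ}
    (h : Nat.Coprime a b) (ha : x ^ a ∈ Z) (hb : x ^ b ∈ Z) : x ∈ Z := by
  have h1 : (1 : ℤ) = a * Nat.gcdA a b + b * Nat.gcdB a b := by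
    rw [← Nat.gcd_eq_gcd_ab, h]
    rfl
  have h2 : x = (x ^ a) ^ (Nat.gcdA a b) * (x ^ b) ^ (Nat.gcdB a b) := by
    rw [← zpow_natCast x a, ← zpow_natCast x b, ← zpow_mul, ← zpow_mul, ← zpow_add, ← h1, zpow_one]
  rw [h2]
  exact Z.mul_mem (Z.zpow_mem ha _) (Z.zpow_mem hb _)

theorem cyc_comm {A : Type} [Group A] {P : Subgroup A} (cyc : IsCyclic P) :
    ∀ x ∈ P, ∀ y ∈ P, x * y = y * x := by
  intro x hx y hy
  have h1 : (⟨x, hx⟩ : P) * ⟨y, hy⟩ = ⟨y, hy⟩ * ⟨x, hx⟩ := by
    let _ := IsCyclic.commGroup (α := P)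
    exact mul_comm (G := P) _ _
  exact congrArg Subtype.val h1

/-- an element which normalizes `P` and centralizes `Q` centralizes `P` -/
theorem cent_of {p : ℕ} [hp : Fact p.Prime] {A : Type} [Group A] [Finite A] {Q P : Subgroup A}
    (cQ : Nat.card Q = p) (QP : Q ≤ P) (cyc : IsCyclic P) (pP : IsPGroup p P)
    (idx : ¬ p ∣ P.index) (n : A) (hn : n ∈ Subgroup.normalizer (P : Set A))
    (hc : ∀ x ∈ Q, n * x = x * n) : ∀ x ∈ P, n * x = x * n := by
  obtain ⟨⟨g, hg⟩, hgen⟩ := cyc.exists_generator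
  have hgen' : ∀ x ∈ P, ∃ t : ℤ, g ^ t = x := by
    intro x hx
    obtain ⟨t, ht⟩ := Subgroup.mem_zpowers_iff.1 (hgen ⟨x, hx⟩)
    refine ⟨t, ?_⟩
    have := congrArg Subtype.val ht
    simpa using this
  obtain ⟨m, hm⟩ := pP ⟨g, hg⟩
  have hm' : g ^ p ^ m = 1 := by
    have := congrArg Subtype.val hm
    simpa using this
  have hng : n * g * n⁻¹ ∈ P := (Subgroup.mem_normalizer_iff.1 hn g).1 hg
  obtain ⟨k, hk⟩ := hgen' _ hng
  -- `k = 1` modulo `p`
  have hk1 : (p : ℤ) ∣ k - 1 := by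
    by_contra hpk
    have hnt : Nontrivial Q := by
      rw [← Finite.one_lt_card_iff_nontrivial, cQ]
      exact hp.out.one_lt
    obtain ⟨⟨y, hy⟩, hy1⟩ := exists_ne (1 : Q)
    have hy1' : y ≠ 1 := fun h => hy1 (Subtype.ext h)
    obtain ⟨t, ht⟩ := hgen' y (QP hy)
    have h1 : n * y * n⁻¹ = y := by
      rw [hc y hy, mul_inv_cancel_right]
    have h2 : g ^ ((k - 1) * t) = 1 := by
      have h3 : n * y * n⁻¹ = g ^ (k * t) := by
        rw [← ht, ← conj_zpow, ← hk, ← zpow_mul]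
      rw [h3, ← ht] at h1
      rw [sub_mul, one_mul, zpow_sub, h1, mul_inv_cancel]
    have h4 : (orderOf g : ℤ) ∣ (k - 1) * t := orderOf_dvd_iff_zpow_eq_one.2 h2
    have h5 : IsCoprime (orderOf g : ℤ) (k - 1) := by
      obtain ⟨i, -, hi⟩ := (Nat.dvd_prime_pow hp.out).1 (orderOf_dvd_of_pow_eq_one hm')
      rw [hi]
      push_cast
      apply IsCoprime.pow_left
      exact (Nat.prime_iff_prime_int.1 hp.out).coprime_iff_not_dvd.2 hpk
    have h6 : (orderOf g : ℤ) ∣ t := h5.dvd_of_dvd_mul_left h4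
    apply hy1'
    rw [← ht]
    exact orderOf_dvd_iff_zpow_eq_one.1 h6
  have hconj : ∀ t : ℕ, n ^ t * g * (n ^ t)⁻¹ = g ^ (k ^ t) := by
    intro t
    induction t with
    | zero => simp
    | succ t ih =>
      have e1 : n ^ (t + 1) * g * (n ^ (t + 1))⁻¹ = n * (n ^ t * g * (n ^ t)⁻¹) * n⁻¹ := by
        rw [pow_succ']
        group
      rw [e1, ih, ← conj_zpow, ← hk, ← zpow_mul, pow_succ']
  have hZ1 : n ^ p ^ m ∈ Subgroup.centralizer ({g} : Set A) := by
    have h1 := hconj (p ^ m)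
    obtain ⟨z, hz⟩ := dvd_sub_pow_of_dvd_sub (R := ℤ) (a := k) (b := 1) hk1 m
    have h2 : g ^ (k ^ p ^ m) = g := by
      have e1 : k ^ p ^ m = 1 + (p ^ m : ℕ) * (p * z) := by
        rw [one_pow] at hz
        push_cast
        rw [pow_succ] at hz
        linear_combination hz
      rw [e1, zpow_add, zpow_one, zpow_mul, zpow_natCast, hm', one_zpow, mul_one]
    rw [h2, mul_inv_eq_iff_eq_mul] at h1
    rw [Subgroup.mem_centralizer_iff]
    intro x hx
    rw [Set.mem_singleton_iff.1 hx]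
    exact h1.symm
  have hZ2 : n ^ (P.subgroupOf (Subgroup.normalizer (P : Set A))).index ∈
      Subgroup.centralizer ({g} : Set A) := by
    have hnn : (P.subgroupOf (Subgroup.normalizer (P : Set A))).Normal :=
      Subgroup.normal_in_normalizer
    have h1 := Subgroup.pow_index_mem (P.subgroupOf (Subgroup.normalizer (P : Set A))) ⟨n, hn⟩
    rw [Subgroup.mem_subgroupOf] at h1
    have h2 : n ^ (P.subgroupOf (Subgroup.normalizer (P : Set A))).index ∈ P := by
      simpa using h1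
    rw [Subgroup.mem_centralizer_iff]
    intro x hx
    rw [Set.mem_singleton_iff.1 hx]
    exact cyc_comm cyc g hg _ h2
  have hco : Nat.Coprime (p ^ m) (P.subgroupOf (Subgroup.normalizer (P : Set A))).index := by
    apply Nat.Coprime.pow_left
    rw [Nat.Prime.coprime_iff_not_dvd hp.out]
    intro h
    apply idx
    have hle : P ≤ Subgroup.normalizer (P : Set A) := Subgroup.le_normalizer
    rw [← Subgroup.relIndex_mul_index hle]
    exact Dvd.dvd.mul_right h _
  have hZ := mem_of_coprime _ hco hZ1 hZ2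
  have hgn : g * n = n * g := Subgroup.mem_centralizer_iff.1 hZ g rfl
  intro x hx
  obtain ⟨t, rfl⟩ := hgen' x hx
  have h3 : Commute n g := hgn.symm
  exact h3.zpow_right t

/-- the complement -/
theorem exLC (p : ℕ) [hp : Fact p.Prime] {A : Type} [Group A] [Finite A] (Q P : Subgroup A)
    (nQ : Q.Normal) (cQ : Nat.card Q = p) (QP : Q ≤ P) (cyc : IsCyclic P) (pP : IsPGroup p P)
    (idx : ¬ p ∣ P.index) : ∃ H : Subgroup A, LC p Q P H := by
  have hcomm := cyc_comm cyc
  obtain ⟨C, hC⟩ : ∃ C, C = Subgroup.centralizer (Q : Set A) := ⟨_, rfl⟩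
  have mC : ∀ g, g ∈ C ↔ ∀ x ∈ Q, x * g = g * x := by
    intro g
    rw [hC, Subgroup.mem_centralizer_iff]
    rfl
  have hPC : P ≤ C := fun x hx => (mC x).2 fun y hy => hcomm y (QP hy) x hx
  have nC : ∀ c ∈ C, ∀ a : A, a * c * a⁻¹ ∈ C := by
    intro c hc a
    rw [mC] at hc ⊢
    intro x hx
    have h1 := hc (a⁻¹ * x * a) (by
      have := nQ.conj_mem x hx a⁻¹
      rwa [inv_inv] at this)
    calc x * (a * c * a⁻¹) = a * ((a⁻¹ * x * a) * c) * a⁻¹ := by group
      _ = a * (c * (a⁻¹ * x * a)) * a⁻¹ := by rw [h1]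
      _ = a * c * a⁻¹ * x := by group
  have hpC : IsPGroup p (P.subgroupOf C) :=
    pP.of_equiv (Subgroup.subgroupOfEquivOfLe hPC).symm
  have hidx : ¬ p ∣ (P.subgroupOf C).index := by
    intro h
    apply idx
    rw [← Subgroup.relIndex_mul_index hPC]
    exact Dvd.dvd.mul_right h _
  obtain ⟨S, hS⟩ : ∃ S : Sylow p C, (S : Subgroup C) = P.subgroupOf C :=
    ⟨hpC.toSylow hidx, rfl⟩
  have mS : ∀ x : C, x ∈ S ↔ (x : A) ∈ P := by
    intro x
    show x ∈ (S : Subgroup C) ↔ _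
    rw [hS, Subgroup.mem_subgroupOf]
  have hB : Subgroup.normalizer (S : Set C) ≤ Subgroup.centralizer (S : Set C) := by
    intro c hc
    have hcP : (c : A) ∈ Subgroup.normalizer (P : Set A) := by
      apply Subgroup.mem_normalizer_fintype
      intro x hx
      have h1 := (Subgroup.mem_normalizer_iff.1 hc ⟨x, hPC hx⟩).1 ((mS _).2 hx)
      have h2 := (mS _).1 h1
      simpa using h2
    have h3 := cent_of cQ QP cyc pP idx (c : A) hcP (fun x hx => ((mC c).1 c.2 x hx).symm)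
    rw [Subgroup.mem_centralizer_iff]
    intro x hx
    apply Subtype.ext
    exact (h3 x ((mS x).1 hx)).symm
  have hK := MonoidHom.ker_transferSylow_isComplement' S hB
  obtain ⟨K, hKdef⟩ : ∃ K, K = (MonoidHom.transferSylow S hB).ker := ⟨_, rfl⟩
  rw [← hKdef] at hK
  have nK : K.Normal := by rw [hKdef]; infer_instance
  obtain ⟨m, hm⟩ := (IsPGroup.iff_card.1 S.isPGroup')
  have hKi : K.index = p ^ m := by
    rw [hK.symm.index_eq_card]
    exact hm
  have hKc : ¬ p ∣ Nat.card K := by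
    rw [← hK.index_eq_card, hS]
    exact hidx
  have char1 : ∀ c ∈ C, ¬ p ∣ orderOf c → c ∈ K.map C.subtype := by
    intro c hc ho
    refine ⟨⟨c, hc⟩, ?_, rfl⟩
    have h1 := Subgroup.pow_index_mem K ⟨c, hc⟩
    have h2 : (⟨c, hc⟩ : C) ^ orderOf c ∈ K := by
      have : (⟨c, hc⟩ : C) ^ orderOf c = 1 := by
        apply Subtype.ext
        simp
      rw [this]
      exact K.one_mem
    refine mem_of_coprime K ?_ h1 h2
    rw [hKi]
    exact Nat.Coprime.pow_left _ ((Nat.Prime.coprime_iff_not_dvd hp.out).2 ho)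
  have hHC : K.map C.subtype ≤ C := by
    rintro _ ⟨k, -, rfl⟩
    exact k.2
  have hcH : Nat.card (K.map C.subtype) = Nat.card K :=
    Subgroup.card_map_of_injective C.subtype_injective
  have hcen : C = K.map C.subtype ⊔ P := by
    apply le_antisymm
    · intro c hc
      obtain ⟨⟨k, x⟩, h⟩ := hK.2 ⟨c, hc⟩
      have h1 : (k : C) * (x : C) = ⟨c, hc⟩ := h
      have h2 : ((k : C) : A) * ((x : C) : A) = c := congrArg Subtype.val h1
      rw [← h2]
      exact Subgroup.mul_mem_sup ⟨k, k.2, rfl⟩ ((mS x).1 x.2)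
    · exact sup_le hHC hPC
  refine ⟨K.map C.subtype, nQ, cQ, QP, cyc, pP, ?_, by rwa [hcH], ?_, ?_⟩
  · constructor
    intro h hh a
    apply char1 _ (nC h (hHC hh) a)
    have h1 : orderOf (a * h * a⁻¹) = orderOf h := by
      have := orderOf_injective (MulAut.conj a).toMonoidHom (MulAut.conj a).injective h
      simpa using this
    rw [h1]
    intro hd
    have h2 := orderOf_dvd_natCard (⟨h, hh⟩ : K.map C.subtype)
    rw [← Subgroup.orderOf_coe, hcH] at h2
    exact hKc (hd.trans h2)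
  · rw [← hC]
    exact hcen
  · rw [← hcen]
    intro h
    exact idx (h.trans (Subgroup.index_dvd_of_le hPC))

theorem t_C0 : C0 := by
  intro p hp G _ _ P cyc hG
  have hPc : p ∣ Nat.card P := P.dvd_card_of_dvd_card hG
  obtain ⟨x, hx⟩ := exists_prime_orderOf_dvd_card' (G := P) p hPc
  have hx' : orderOf (x : G) = p := by rw [Subgroup.orderOf_coe]; exact hx
  obtain ⟨Q, hQ⟩ : ∃ Q : Subgroup G, Q = Subgroup.zpowers (x : G) := ⟨_, rfl⟩
  have cQ : Nat.card Q = p := by
    rw [hQ, Nat.card_zpowers, hx']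
  have QP : Q ≤ P := by
    rw [hQ, Subgroup.zpowers_le]
    exact x.2
  -- the elements of order dividing `p`
  have hQall : ∀ y ∈ (P : Subgroup G), y ^ p = 1 → y ∈ Q := by
    intro y hy hyp
    let _ : Fintype P := Fintype.ofFinite P
    have h1 := IsCyclic.card_pow_eq_one_le (α := P) hp.out.pos
    have h2 : (Q.subgroupOf P : Set P).toFinset ⊆ Finset.univ.filter fun a : P => a ^ p = 1 := by
      intro a ha
      rw [Set.mem_toFinset] at ha
      rw [Finset.mem_filter]
      refine ⟨Finset.mem_univ _, ?_⟩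
      apply Subtype.ext
      have ha' : (a : G) ∈ Q := ha
      have h3 := orderOf_dvd_natCard (⟨(a : G), ha'⟩ : Q)
      rw [cQ, ← Subgroup.orderOf_coe] at h3
      simpa using orderOf_dvd_iff_pow_eq_one.1 h3
    have h4 : (Q.subgroupOf P : Set P).toFinset.card = p := by
      rw [Set.toFinset_card, ← Nat.card_eq_fintype_card]
      exact (Nat.card_congr (Subgroup.subgroupOfEquivOfLe QP).toEquiv).trans cQ
    have h5 := Finset.eq_of_subset_of_card_le h2 (by rw [h4]; exact h1)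
    have h6 : (⟨y, hy⟩ : P) ∈ Finset.univ.filter fun a : P => a ^ p = 1 := by
      rw [Finset.mem_filter]
      exact ⟨Finset.mem_univ _, Subtype.ext (by simpa using hyp)⟩
    rw [← h5, Set.mem_toFinset] at h6
    exact h6
  have hNB : NN P ≤ Subgroup.normalizer (Q : Set G) := by
    intro g hg
    apply Subgroup.mem_normalizer_fintype
    intro y hy
    apply hQall
    · exact (Subgroup.mem_normalizer_iff.1 hg y).1 (QP hy)
    · have h3 := orderOf_dvd_natCard (⟨y, hy⟩ : Q)
      rw [cQ, ← Subgroup.orderOf_coe] at h3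
      have h4 : y ^ p = 1 := orderOf_dvd_iff_pow_eq_one.1 h3
      rw [conj_pow, h4, mul_one, mul_inv_cancel]
  obtain ⟨B, hB⟩ : ∃ B, B = Subgroup.normalizer (Q : Set G) := ⟨_, rfl⟩
  have hPN : (P : Subgroup G) ≤ NN P := Subgroup.le_normalizer
  have hPB : (P : Subgroup G) ≤ B := by rw [hB]; exact hPN.trans hNB
  have hQB : Q ≤ B := QP.trans hPB
  have hi : ¬ p ∣ (P : Subgroup G).index := P.not_dvd_index
  have hiB : ¬ p ∣ B.index := fun h => hi (h.trans (Subgroup.index_dvd_of_le hPB))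
  obtain ⟨H, hH⟩ := exLC p (Q.subgroupOf B) ((P : Subgroup G).subgroupOf B)
    (by rw [hB]; exact Subgroup.normal_in_normalizer)
    (by rw [Nat.card_congr (Subgroup.subgroupOfEquivOfLe hQB).toEquiv]; exact cQ)
    (fun y hy => QP hy)
    ((Subgroup.subgroupOfEquivOfLe hPB).symm.isCyclic.1 cyc)
    (P.isPGroup'.of_equiv (Subgroup.subgroupOfEquivOfLe hPB).symm)
    (by
      intro h
      apply hi
      rw [← Subgroup.relIndex_mul_index hPB]
      exact Dvd.dvd.mul_right h _)
  refine ⟨Q, B, H, by rw [hB]; exact hNB, QP, hB, hH, ⟨Subgroup.subtype_injective _, fun g hg => ?_,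
    ?_⟩, ⟨fun _ _ h => h, fun g _ => ⟨g, rfl⟩, ?_⟩⟩
  · rw [Subgroup.range_subtype, hB]
    apply Subgroup.mem_normalizer_fintype
    intro y hy
    obtain ⟨z, hz, h⟩ := hg ⟨y, hQB hy⟩ hy
    have h1 : g * y * g⁻¹ = (z : G) := h
    rw [h1]
    exact hz
  · rw [Subgroup.range_subtype]
    exact hiB
  · have h1 : (MonoidHom.id B).range = ⊤ := MonoidHom.range_eq_top.2 fun x => ⟨x, rfl⟩
    rw [h1, Subgroup.index_top]
    exact hp.out.one_lt.ne' ∘ Nat.dvd_one.1

end Pool.Agent.K3h93.CY
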